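import Pool.Agent.Y132.HF.VMain

/-!
# The variational Hodge conjecture for all fibre products of given families is a finite problem

Let `X i` be finitely many smooth projective families and `Z` a further one over a connected base
`S`, and let `o` be a point of `S`. We consider the fibre products over `S` of `Z` and copies of the
`X i`. Suppose that homological and numerical equivalence coincide for the flat algebraic classes
(the algebraic classes on the fibre over `o` which are invariant under the monodromy) on the fibres
over `o` of all these fibre products. This is true if the fibres satisfy the Lefschetz standard
conjecture, for example for abelian schemes.

We show that there is a number `N` such that the flat algebraic classes on all these fibre products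
are polynomials in the pull-backs of the flat algebraic classes on the fibre products of `Z` with at
most `N` of the factors. Hence the variational Hodge conjecture for all these fibre products follows
from the variational Hodge conjecture for the finitely many ones with at most `N` factors.
-/

open CategoryTheory AlgebraicGeometry

universe u v

namespace Pool.Agent.Results.MP_e9c0f3_ag.FiniteGeneration

open Pool.Agent.H914 Pool.Agent.H914.VarClass Pool.Agent.H914.VarClass.Obj Pool.Agent.Y132.AH
  Pool.Agent.Y132.HF

variable {k : Type u} [Field k] {𝒱 : VarClass k} {ops : CycleOps 𝒱}

/-- Let `W` be a Weil cohomology (in the intended use: singular cohomology of complex varieties), `F`
finitely many families `X i` and a family `Z` over a base, and `o` a point of the base such that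
homological and numerical equivalence coincide for the flat algebraic classes on the fibre products
of `Z` with copies of the `X i`. There is a number `N` such that for all lists `L` the flat algebraic
classes on the fibre product for `L` are generated by the pull-backs, by projections, of the flat
algebraic classes on the fibre products of `Z` with at most `N` of the factors; and for every point
`s` the variational Hodge conjecture holds for all fibre products, for `o` and `s`, if and only if it
holds for the fibre products with at most `N` factors. -/
theorem result (W : WeilCohomology.{u, v} ops) {ι : Type} [Finite ι] (F : Families W ι) (o : F.S)
    (h : F.HomNum o) :
    ∃ N : ℕ, (∀ L : List ι, F.GenBy o N L) ∧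
      ∀ s : F.S, (∀ L : List ι, F.VHC L o s) ↔ ∀ L : List ι, L.length ≤ N → F.VHC L o s :=
  vhc_finite F o h

end Pool.Agent.Results.MP_e9c0f3_ag.FiniteGeneration
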